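import Pool.Agent.helper86.BK.Spec

set_option autoImplicit false

namespace Pool.Agent.BK

open Classical in
/-- the elements of `[1, M]` which are not in `Q + F` -/
noncomputable def COV_U (M : ℕ) (Q : Finset ℕ) (F : Finset ℤ) : Finset ℕ :=
  (Finset.Icc 1 M).filter fun m => ¬ ∃ q ∈ Q, ∃ t ∈ F, (m : ℤ) = q + t

open Classical in
theorem COV_step (M : ℕ) (Q X : Finset ℕ) (hM : 1 ≤ M) (hQ : ∀ q ∈ Q, 1 ≤ q ∧ q ≤ M)
    (hX : ∀ m ∈ X, 1 ≤ m ∧ m ≤ M) :
    ∃ t : ℤ, (X.card : ℝ) * (Q.card / (2 * M)) ≤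
      ((X.filter fun m : ℕ => ∃ q ∈ Q, (m : ℤ) = q + t).card : ℝ) := by
  have hM0 : (0 : ℝ) < M := by exact_mod_cast hM
  set S : Finset ℤ := Finset.Ioo (-(M : ℤ)) M with hS
  have hScard : (S.card : ℝ) ≤ 2 * M := by
    rw [hS, Int.card_Ioo]
    have h1 : ((((M : ℤ) - -(M : ℤ) - 1).toNat : ℕ) : ℤ) ≤ 2 * (M : ℤ) := by
      omega
    exact_mod_cast h1
  have hmaps : ∀ a ∈ X ×ˢ Q, ((a.1 : ℤ) - a.2) ∈ S := by
    rintro ⟨m, q⟩ hmq
    rw [Finset.mem_product] at hmq
    have h1 := hX m hmq.1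
    have h2 := hQ q hmq.2
    rw [hS, Finset.mem_Ioo]
    simp only
    omega
  have hSne : S.Nonempty := ⟨0, by rw [hS, Finset.mem_Ioo]; omega⟩
  have hb : S.card • ((X.card : ℝ) * (Q.card / (2 * M))) ≤ ((X ×ˢ Q).card : ℝ) := by
    rw [Finset.card_product, nsmul_eq_mul]
    push_cast
    have h1 : 0 ≤ (X.card : ℝ) * (Q.card / (2 * M)) := by positivity
    calc (S.card : ℝ) * ((X.card : ℝ) * (Q.card / (2 * M)))
        ≤ (2 * M) * ((X.card : ℝ) * (Q.card / (2 * M))) := mul_le_mul_of_nonneg_right hScard h1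
      _ = X.card * Q.card := by field_simp
  obtain ⟨t, -, ht⟩ := Finset.exists_le_card_fiber_of_nsmul_le_card_of_maps_to hmaps hSne hb
  refine ⟨t, ht.trans (Nat.cast_le.2 ?_)⟩
  refine Finset.card_le_card_of_injOn (fun a => a.1) ?_ ?_
  · rintro ⟨m, q⟩ hmq
    rw [Finset.mem_coe, Finset.mem_filter, Finset.mem_product] at hmq
    rw [Finset.mem_coe, Finset.mem_filter]
    refine ⟨hmq.1.1, q, hmq.1.2, ?_⟩
    have := hmq.2
    simp only at this ⊢
    omega
  · rintro ⟨m, q⟩ hmq ⟨m', q'⟩ hmq' h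
    rw [Finset.mem_coe, Finset.mem_filter, Finset.mem_product] at hmq hmq'
    have h1 := hmq.2
    have h2 := hmq'.2
    simp only at h h1 h2
    subst h
    have h3 : q = q' := by omega
    rw [h3]

open Classical in
theorem COV_ind (M : ℕ) (Q : Finset ℕ) (hM : 1 ≤ M) (hQ : ∀ q ∈ Q, 1 ≤ q ∧ q ≤ M) (T : ℕ) :
    ∃ F : Finset ℤ, F.card ≤ T ∧
      ((COV_U M Q F).card : ℝ) ≤ M * (1 - Q.card / (2 * M)) ^ T := by
  have hM0 : (0 : ℝ) < M := by exact_mod_cast hM
  have hQM : (Q.card : ℝ) ≤ M := by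
    have h1 : Q.card ≤ (Finset.Icc 1 M).card :=
      Finset.card_le_card fun q hq => Finset.mem_Icc.2 (hQ q hq)
    rw [Nat.card_Icc, Nat.add_sub_cancel] at h1
    exact_mod_cast h1
  have h0 : (0 : ℝ) ≤ 1 - Q.card / (2 * M) := by
    rw [sub_nonneg, div_le_one (by positivity)]
    linarith
  induction T with
  | zero =>
    refine ⟨∅, by simp, ?_⟩
    rw [pow_zero, mul_one]
    have h1 : (COV_U M Q ∅).card ≤ (Finset.Icc 1 M).card := Finset.card_le_card (Finset.filter_subset _ _)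
    rw [Nat.card_Icc, Nat.add_sub_cancel] at h1
    exact_mod_cast h1
  | succ T ih =>
    obtain ⟨F, hF, hU⟩ := ih
    have hX : ∀ m ∈ COV_U M Q F, 1 ≤ m ∧ m ≤ M := fun m hm =>
      Finset.mem_Icc.1 (Finset.mem_filter.1 hm).1
    obtain ⟨t, ht⟩ := COV_step M Q (COV_U M Q F) hM hQ hX
    refine ⟨insert t F, (Finset.card_insert_le _ _).trans (by omega), ?_⟩
    have hsub : COV_U M Q (insert t F) ⊆
        (COV_U M Q F).filter fun m : ℕ => ¬ ∃ q ∈ Q, (m : ℤ) = q + t := by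
      intro m hm
      unfold COV_U at hm ⊢
      rw [Finset.mem_filter] at hm
      rw [Finset.mem_filter, Finset.mem_filter]
      refine ⟨⟨hm.1, fun h => hm.2 ?_⟩, fun h => hm.2 ?_⟩
      · obtain ⟨q, hq, s, hs, e⟩ := h
        exact ⟨q, hq, s, Finset.mem_insert_of_mem hs, e⟩
      · obtain ⟨q, hq, e⟩ := h
        exact ⟨q, hq, t, Finset.mem_insert_self _ _, e⟩
    have h1 : ((COV_U M Q (insert t F)).card : ℝ) ≤
        ((COV_U M Q F).filter fun m : ℕ => ¬ ∃ q ∈ Q, (m : ℤ) = q + t).card := by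
      exact_mod_cast Finset.card_le_card hsub
    have h2 := Finset.card_filter_add_card_filter_not (s := COV_U M Q F)
      (fun m : ℕ => ∃ q ∈ Q, (m : ℤ) = q + t)
    have h3 : (((COV_U M Q F).filter fun m : ℕ => ∃ q ∈ Q, (m : ℤ) = q + t).card : ℝ) +
        (((COV_U M Q F).filter fun m : ℕ => ¬ ∃ q ∈ Q, (m : ℤ) = q + t).card : ℝ) =
        (COV_U M Q F).card := by
      exact_mod_cast h2
    calc ((COV_U M Q (insert t F)).card : ℝ)
        ≤ ((COV_U M Q F).card : ℝ) * (1 - Q.card / (2 * M)) := by linarith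
      _ ≤ (M * (1 - Q.card / (2 * M)) ^ T) * (1 - Q.card / (2 * M)) :=
          mul_le_mul_of_nonneg_right hU h0
      _ = M * (1 - Q.card / (2 * M)) ^ (T + 1) := by ring

theorem COV : COV_stmt := by
  classical
  intro M Q hM hQne hQ
  have hM0 : (0 : ℝ) < M := by exact_mod_cast hM
  have hM1 : (1 : ℝ) ≤ M := by exact_mod_cast hM
  have hQ0 : (0 : ℝ) < Q.card := by exact_mod_cast hQne.card_pos
  have hlog : 0 ≤ Real.log M := Real.log_nonneg hM1
  have hQM : (Q.card : ℝ) ≤ M := by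
    have h1 : Q.card ≤ (Finset.Icc 1 M).card :=
      Finset.card_le_card fun q hq => Finset.mem_Icc.2 (hQ q hq)
    rw [Nat.card_Icc, Nat.add_sub_cancel] at h1
    exact_mod_cast h1
  set x : ℝ := 2 * M / Q.card * (Real.log M + 1) with hx
  have hx0 : 0 ≤ x := by positivity
  obtain ⟨F, hF, hU⟩ := COV_ind M Q hM hQ (⌊x⌋₊ + 1)
  refine ⟨F, ?_, ?_⟩
  · have h1 : (F.card : ℝ) ≤ (⌊x⌋₊ : ℝ) + 1 := by exact_mod_cast hF
    have h2 := Nat.floor_le hx0
    linarith
  · have hlt : ((COV_U M Q F).card : ℝ) < 1 := by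
      refine lt_of_le_of_lt hU ?_
      set c : ℝ := Q.card / (2 * M) with hc
      have hc0 : 0 < c := by positivity
      have h0 : 0 ≤ 1 - c := by
        rw [hc, sub_nonneg, div_le_one (by positivity)]
        linarith
      have h1 : (1 - c) ^ (⌊x⌋₊ + 1) ≤ Real.exp (-c) ^ (⌊x⌋₊ + 1) := by
        refine pow_le_pow_left₀ h0 ?_ _
        have := Real.add_one_le_exp (-c)
        linarith
      have h2 : Real.exp (-c) ^ (⌊x⌋₊ + 1) = Real.exp (((⌊x⌋₊ + 1 : ℕ) : ℝ) * (-c)) :=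
        (Real.exp_nat_mul _ _).symm
      have h3 : ((⌊x⌋₊ + 1 : ℕ) : ℝ) * (-c) ≤ -(Real.log M + 1) := by
        have h4 : x < ((⌊x⌋₊ + 1 : ℕ) : ℝ) := by
          push_cast
          exact Nat.lt_floor_add_one x
        have h5 : x * c = Real.log M + 1 := by
          rw [hx, hc]
          field_simp
        have h6 : x * c ≤ ((⌊x⌋₊ + 1 : ℕ) : ℝ) * c := mul_le_mul_of_nonneg_right h4.le hc0.le
        linarith
      calc M * (1 - c) ^ (⌊x⌋₊ + 1) ≤ M * Real.exp (-(Real.log M + 1)) := by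
            refine mul_le_mul_of_nonneg_left ?_ hM0.le
            rw [h2] at h1
            exact h1.trans (Real.exp_le_exp.2 h3)
        _ = Real.exp (-1) := by
            have e : -(Real.log M + 1) = -Real.log M + -1 := by ring
            rw [e, Real.exp_add, Real.exp_neg (Real.log M), Real.exp_log hM0]
            field_simp
        _ < 1 := by
            rw [Real.exp_lt_one_iff]
            norm_num
    have hempty : (COV_U M Q F).card = 0 := by
      have : (COV_U M Q F).card < 1 := by exact_mod_cast hlt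
      omega
    rw [Finset.card_eq_zero] at hempty
    intro m h1 h2
    by_contra hcon
    have : m ∈ COV_U M Q F := Finset.mem_filter.2 ⟨Finset.mem_Icc.2 ⟨h1, h2⟩, hcon⟩
    rw [hempty] at this
    exact absurd this (Finset.notMem_empty m)

end Pool.Agent.BK
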